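import Pool.Agent.U501.Tsirelson.Space

/-!
# The separation constant of the Tsirelson space is `2`

There is exactly one norm on `c₀₀` with the Figiel–Johnson fixed point property, the canonical map
from `c₀₀` to `TsirelsonSpace` carries it and has dense range, `P(T) = 2`, and the supremum is
attained by an infinite subset of the unit ball, any two points of which are at distance exactly
`2`.
-/

namespace Pool.Agent.Results.MP_6d986f_an.SeparationConstant

open Pool.Agent.U501.Tsirelson

theorem result :
    (∃! N : C00 → ℝ, IsTsirelsonNorm N) ∧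
    IsTsirelsonNorm (fun x => ‖toT x‖) ∧
    (∀ x y : C00, ∀ c : ℝ, toT (x + c • y) = toT x + c • toT y) ∧
    DenseRange toT ∧
    sepConst TsirelsonSpace = 2 ∧
    ∃ S : Set TsirelsonSpace, S.Infinite ∧ (∀ x ∈ S, ‖x‖ ≤ 1) ∧
      ∀ x ∈ S, ∀ y ∈ S, x ≠ y → ‖x - y‖ = 2 := by
  refine ⟨⟨tnorm, tnorm_isTsirelson, fun N hN => tsirelsonNorm_unique hN⟩, ?_, ?_, ?_,
    sepConst_tsirelson, vset, vset_infinite, vset_norm, vset_sep⟩
  · have h : (fun x => ‖toT x‖) = tnorm := funext norm_toT
    rw [h]; exact tnorm_isTsirelson
  · intro x y c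
    have h1 : toT (x + c • y) = ((toPre x + c • toPre y : TPre) : TsirelsonSpace) := rfl
    rw [h1, UniformSpace.Completion.coe_add, UniformSpace.Completion.coe_smul]
    rfl
  · exact UniformSpace.Completion.denseRange_coe (α := TPre)

end Pool.Agent.Results.MP_6d986f_an.SeparationConstant
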